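import Mathlib.Analysis.Real.Hyperreal
import Mathlib.Topology.Algebra.Order.Field
import Mathlib.Topology.Algebra.OpenSubgroup
import Mathlib.Topology.Connected.Clopen
import Mathlib.Topology.Bases

set_option autoImplicit false

/-!
# Fields containing a nondiscrete field in which all `G_δ` sets are open

Let `F` be a nondiscrete topological field in which countable intersections of neighbourhoods of `0`
are neighbourhoods of `0`, for example the field of the hyperreal numbers with its order topology.
We show that the topological fields `K` which contain `F` have no countable subset with an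
accumulation point. Thus, if `F` embeds into a connected field `K` at all, then `K` is not separable,
not first countable, has only finite compact subsets, only constant paths, and no bounded
(not even a `σ`-bounded) neighbourhood of `0`.
-/

open Filter Topology Set

namespace Pool.Agent.Results.MP_a60711_al.PFields

/-- The field `F` with a topology is nondiscrete, and every countable intersection of neighbourhoods
of `0` is a neighbourhood of `0`. -/
def IsPField (F : Type*) [Field F] [TopologicalSpace F] : Prop :=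
  (∀ U ∈ 𝓝 (0 : F), ∃ a ∈ U, a ≠ 0) ∧
    ∀ U : ℕ → Set F, (∀ n, U n ∈ 𝓝 (0 : F)) → ⋂ n, U n ∈ 𝓝 (0 : F)

section

variable {F K : Type*} [Field F] [TopologicalSpace F] [Field K] [TopologicalSpace K]
  [IsTopologicalDivisionRing K] [T2Space K]

theorem no_acc (hF : IsPField F) (f : F →+* K) (hf : Continuous f) (S : Set K) (hS : S.Countable)
    (x : K) : x ∉ closure (S \ {x}) := by
  intro hx
  have hT : (S \ {x}).Countable := hS.mono sdiff_subset
  have hne : (S \ {x}).Nonempty := by
    rw [← closure_nonempty_iff]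
    exact ⟨x, hx⟩
  obtain ⟨s, hs⟩ := hT.exists_eq_range hne
  obtain ⟨O₁, O₀, hO₁, hO₀, h1, h0, hd⟩ := t2_separation (one_ne_zero : (1 : K) ≠ 0)
  have hW : {w : K | (1 + w)⁻¹ ∈ O₁} ∈ 𝓝 (0 : K) := by
    have hc : ContinuousAt (fun w : K => (1 + w)⁻¹) 0 := by
      refine ContinuousAt.inv₀ (continuousAt_const.add continuousAt_id) ?_
      simp
    exact hc (hO₁.mem_nhds (by simpa using h1))
  have hA : ∀ n, {a : F | (1 + f a * (s n - x)⁻¹)⁻¹ ∈ O₁} ∈ 𝓝 (0 : F) := by
    intro n
    have hc : ContinuousAt (fun a : F => f a * (s n - x)⁻¹) 0 :=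
      (hf.mul continuous_const).continuousAt
    have h2 : {w : K | (1 + w)⁻¹ ∈ O₁} ∈ 𝓝 ((fun a : F => f a * (s n - x)⁻¹) 0) := by
      simpa using hW
    exact hc h2
  obtain ⟨a, ha, ha0⟩ := hF.1 _ (hF.2 _ hA)
  rw [mem_iInter] at ha
  have hfa : f a ≠ 0 := (map_ne_zero f).2 ha0
  have hc : ContinuousAt (fun y : K => (y - x) * ((y - x) + f a)⁻¹) x := by
    refine (continuousAt_id.sub continuousAt_const).mul (ContinuousAt.inv₀
      ((continuousAt_id.sub continuousAt_const).add continuousAt_const) ?_)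
    simpa using hfa
  have h3 : {y : K | (y - x) * ((y - x) + f a)⁻¹ ∈ O₀} ∈ 𝓝 x :=
    hc (hO₀.mem_nhds (by simpa using h0))
  obtain ⟨y, hy, hyS⟩ := mem_closure_iff_nhds.1 hx _ h3
  have hyx : y - x ≠ 0 := sub_ne_zero.2 fun h => hyS.2 h
  have hyr : y ∈ range s := hs ▸ hyS
  obtain ⟨n, rfl⟩ := hyr
  have h4 : (1 + f a * (s n - x)⁻¹)⁻¹ ∈ O₁ := ha n
  have h5 : (1 + f a * (s n - x)⁻¹)⁻¹ = (s n - x) * ((s n - x) + f a)⁻¹ := by
    have h6 : 1 + f a * (s n - x)⁻¹ = ((s n - x) + f a) * (s n - x)⁻¹ := by
      rw [add_mul, mul_inv_cancel₀ hyx]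
    rw [h6, mul_inv, inv_inv, mul_comm]
  rw [h5] at h4
  exact Set.disjoint_left.1 hd h4 hy

theorem closed_of_countable (hF : IsPField F) (f : F →+* K) (hf : Continuous f) (S : Set K)
    (hS : S.Countable) : IsClosed S := by
  refine isClosed_of_closure_subset fun z hz => ?_
  by_contra h
  have h1 : S \ {z} = S := sdiff_singleton_eq_self h
  exact no_acc hF f hf S hS z (by rw [h1]; exact hz)

theorem compact_finite (hF : IsPField F) (f : F →+* K) (hf : Continuous f) (S : Set K)
    (hS : IsCompact S) : S.Finite := by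
  by_contra hinf
  have hinf' : S.Infinite := hinf
  let e := hinf'.natEmbedding S
  let T : Set K := range fun n => (e n : K)
  have hT : T.Infinite := Set.infinite_range_of_injective fun m n h =>
    e.injective (Subtype.ext h)
  have hTS : T ⊆ S := by
    rintro _ ⟨n, rfl⟩
    exact (e n).2
  obtain ⟨x, -, hx⟩ := hT.exists_accPt_of_subset_isCompact hS hTS
  rw [accPt_principal_iff_clusterPt, ← mem_closure_iff_clusterPt] at hx
  exact no_acc hF f hf T (countable_range _) x hx

theorem map_const (hF : IsPField F) (f : F →+* K) (hf : Continuous f) {X : Type*}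
    [TopologicalSpace X] [PreconnectedSpace X]
    (hX : ∀ A : Set X, (∀ T : Set X, IsCompact T ∨ TopologicalSpace.IsSeparable T →
      ∃ C : Set X, IsClosed C ∧ A ∩ T = C ∩ T) → IsClosed A)
    (g : X → K) (hg : Continuous g) (x y : X) : g x = g y := by
  have h1 : ∀ T : Set X, IsCompact T ∨ TopologicalSpace.IsSeparable T → (g '' T).Countable := by
    rintro T (hT | ⟨D, hD, hT⟩)
    · exact (compact_finite hF f hf _ (hT.image hg)).countable
    · have hC : (g '' D).Countable := hD.image g
      refine hC.mono ?_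
      calc g '' T ⊆ g '' closure D := image_mono hT
        _ ⊆ closure (g '' D) := image_closure_subset_closure_image hg
        _ = g '' D := (closed_of_countable hF f hf _ hC).closure_eq
  have h2 : IsClosed {z | g z ≠ g x} := by
    refine hX _ fun T hT => ⟨g ⁻¹' (g '' T \ {g x}), ?_, ?_⟩
    · exact (closed_of_countable hF f hf _ ((h1 T hT).mono sdiff_subset)).preimage hg
    · ext z
      constructor
      · rintro ⟨hz, hzT⟩
        exact ⟨⟨mem_image_of_mem g hzT, hz⟩, hzT⟩
      · rintro ⟨⟨_, hz⟩, hzT⟩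
        exact ⟨hz, hzT⟩
  have h3 : IsClosed {z | g z = g x} := isClosed_eq hg continuous_const
  have h4 : {z | g z = g x} = univ := by
    refine IsClopen.eq_univ ⟨h3, ?_⟩ ⟨x, rfl⟩
    have h5 : {z | g z = g x} = {z | g z ≠ g x}ᶜ := by
      ext z
      simp
    rw [h5]
    exact h2.isOpen_compl
  have h6 : y ∈ {z | g z = g x} := by
    rw [h4]
    exact mem_univ y
  exact Eq.symm h6

theorem not_bounded (hF : IsPField F) (f : F →+* K) [ConnectedSpace K]
    (B : ℕ → Set K) (hB : ⋃ n, B n ∈ 𝓝 (0 : K)) :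
    ∃ n, ∃ U ∈ 𝓝 (0 : K), ∀ W ∈ 𝓝 (0 : F), ∃ a ∈ W, ∃ b ∈ B n, f a * b ∉ U := by
  by_contra hcon
  push Not at hcon
  -- `K` is a P-space
  have hP : ∀ U : ℕ → Set K, (∀ n, U n ∈ 𝓝 (0 : K)) → ⋂ n, U n ∈ 𝓝 (0 : K) := by
    intro U hU
    choose W hW hWU using fun n k => hcon n (U k) (hU k)
    obtain ⟨a, ha, ha0⟩ := hF.1 _ (hF.2 _ fun n => hF.2 _ fun k => hW n k)
    simp only [mem_iInter] at ha
    have hfa : f a ≠ 0 := (map_ne_zero f).2 ha0
    have h2 : {y : K | y * (f a)⁻¹ ∈ ⋃ n, B n} ∈ 𝓝 (0 : K) := by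
      have hc : ContinuousAt (fun y : K => y * (f a)⁻¹) 0 :=
        (continuous_id.mul continuous_const).continuousAt
      refine hc ?_
      simpa using hB
    refine mem_of_superset h2 fun y hy => ?_
    rw [mem_iInter]
    intro k
    obtain ⟨n, hn⟩ := mem_iUnion.1 (show y * (f a)⁻¹ ∈ ⋃ n, B n from hy)
    have h3 := hWU n k a (ha n k) (y * (f a)⁻¹) hn
    have h4 : f a * (y * (f a)⁻¹) = y := by
      rw [mul_comm, mul_assoc, inv_mul_cancel₀ hfa, mul_one]
    rwa [h4] at h3
  -- a sequence of neighbourhoods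
  have hstep : ∀ U : {U : Set K // U ∈ 𝓝 (0 : K)}, ∃ V : {U : Set K // U ∈ 𝓝 (0 : K)},
      ∀ v ∈ V.1, ∀ w ∈ V.1, v - w ∈ U.1 := by
    intro U
    obtain ⟨V, hV, h⟩ := exists_nhds_half_neg U.2
    exact ⟨⟨V, hV⟩, h⟩
  choose st hst using hstep
  have hU₀ : ({1}ᶜ : Set K) ∈ 𝓝 (0 : K) :=
    isClosed_singleton.isOpen_compl.mem_nhds (by simp)
  let U : ℕ → {U : Set K // U ∈ 𝓝 (0 : K)} := fun n => Nat.rec ⟨_, hU₀⟩ (fun _ V => st V) n
  have hUs : ∀ n, ∀ v ∈ (U (n + 1)).1, ∀ w ∈ (U (n + 1)).1, v - w ∈ (U n).1 := fun n =>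
    hst (U n)
  have hH := hP (fun n => (U n).1) fun n => (U n).2
  have hsub : ∀ v ∈ ⋂ n, (U n).1, ∀ w ∈ ⋂ n, (U n).1, v - w ∈ ⋂ n, (U n).1 := by
    intro v hv w hw
    rw [mem_iInter] at hv hw ⊢
    exact fun n => hUs n v (hv (n + 1)) w (hw (n + 1))
  have h0 : (0 : K) ∈ ⋂ n, (U n).1 := mem_of_mem_nhds hH
  let H : AddSubgroup K :=
    { carrier := ⋂ n, (U n).1
      zero_mem' := h0
      neg_mem' := fun {v} hv => by
        have := hsub 0 h0 v hv
        rwa [zero_sub] at this
      add_mem' := fun {v w} hv hw => by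
        have h1 := hsub 0 h0 w hw
        have h2 := hsub v hv _ h1
        rwa [zero_sub, sub_neg_eq_add] at h2 }
  have hopen : IsOpen (H : Set K) := H.isOpen_of_mem_nhds hH
  have hclosed : IsClosed (H : Set K) := H.isClosed_of_isOpen hopen
  have huniv : (H : Set K) = univ := IsClopen.eq_univ ⟨hclosed, hopen⟩ ⟨0, h0⟩
  have h1 : (1 : K) ∈ (H : Set K) := by rw [huniv]; exact mem_univ _
  have h2 : (1 : K) ∈ (U 0).1 := (mem_iInter.1 h1) 0
  exact h2 rfl

end

/-- below a sequence of positive hyperreal numbers there is a positive one -/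
theorem exists_pos_lt (ε : ℕ → Hyperreal) (h : ∀ n, 0 < ε n) :
    ∃ δ : Hyperreal, 0 < δ ∧ ∀ n, δ < ε n := by
  choose e he using fun n => Hyperreal.ofSeq_surjective (ε n)
  have he0 : ∀ n, ∀ᶠ k in hyperfilter ℕ, 0 < e n k := by
    intro n
    have h1 := h n
    rw [← he n] at h1
    exact Hyperreal.ofSeq_lt_ofSeq.1 h1
  -- the diagonal sequence
  have hd' : ∀ k m : ℕ, ∃ d : ℝ, 0 < d ∧ ∀ n ≤ m, 0 < e n k → d < e n k := by
    intro k m
    induction m with
    | zero =>
      by_cases h1 : 0 < e 0 k
      · refine ⟨e 0 k / 2, by linarith, fun n hn _ => ?_⟩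
        rw [Nat.le_zero.1 hn]
        linarith
      · refine ⟨1, one_pos, fun n hn h2 => ?_⟩
        rw [Nat.le_zero.1 hn] at h2
        exact absurd h2 h1
    | succ m ih =>
      obtain ⟨d, hd0, hd1⟩ := ih
      by_cases h1 : 0 < e (m + 1) k
      · refine ⟨min d (e (m + 1) k / 2), lt_min hd0 (by linarith), fun n hn h2 => ?_⟩
        rcases Nat.le_succ_iff.1 hn with h3 | h3
        · exact (min_le_left _ _).trans_lt (hd1 n h3 h2)
        · rw [h3]
          exact (min_le_right _ _).trans_lt (by linarith)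
      · refine ⟨d, hd0, fun n hn h2 => ?_⟩
        rcases Nat.le_succ_iff.1 hn with h3 | h3
        · exact hd1 n h3 h2
        · rw [h3] at h2
          exact absurd h2 h1
  choose d hd0 hd1 using fun k => hd' k k
  refine ⟨Hyperreal.ofSeq d, ?_, fun n => ?_⟩
  · exact Hyperreal.ofSeq_lt_ofSeq.2 (Eventually.of_forall hd0)
  · rw [← he n]
    refine Hyperreal.ofSeq_lt_ofSeq.2 ?_
    have h1 : ∀ᶠ k in hyperfilter ℕ, n ≤ k :=
      (Nat.hyperfilter_le_atTop (eventually_ge_atTop n))
    filter_upwards [he0 n, h1] with k h2 h3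
    exact hd1 k n h3 h2

/-- Part (1): let `f : F → K` be a continuous homomorphism of a nondiscrete field `F` in which
countable intersections of neighbourhoods of `0` are neighbourhoods of `0` (in particular, an
embedding) to a Hausdorff topological field `K`. Then no countable subset of `K` has an accumulation
point, the compact subsets of `K` are finite, the continuous maps to `K` of the connected spaces `X`
whose topology is determined by their compact and their separable subsets (among them are all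
connected spaces that are first countable, sequential, countably tight, separable, locally compact or
compactly generated) are constant, and, if `K` is connected, then no neighbourhood of `0` in `K` is
the union of countably many sets `B n` which are bounded with respect to `F`: for every
neighbourhood `U` of `0` in `K` there is a neighbourhood `W` of `0` in `F` with `f W * B n ⊆ U` (this
holds if `B n` is a bounded subset of the topological ring `K`). Part (2): the field of the hyperreal
numbers with the order topology is such a field `F`. -/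
theorem result :
    (∀ (F K : Type) [Field F] [TopologicalSpace F] [Field K] [TopologicalSpace K]
      [IsTopologicalDivisionRing K] [T2Space K] (f : F →+* K), IsPField F → Continuous f →
      (∀ S : Set K, S.Countable → ∀ x, x ∉ closure (S \ {x})) ∧
      (∀ S : Set K, IsCompact S → S.Finite) ∧
      (∀ (X : Type) [TopologicalSpace X] [PreconnectedSpace X],
        (∀ A : Set X, (∀ T : Set X, IsCompact T ∨ TopologicalSpace.IsSeparable T →
          ∃ C : Set X, IsClosed C ∧ A ∩ T = C ∩ T) → IsClosed A) →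
        ∀ g : X → K, Continuous g → ∀ x y, g x = g y) ∧
      (ConnectedSpace K → ∀ B : ℕ → Set K, ⋃ n, B n ∈ 𝓝 (0 : K) →
        ∃ n, ∃ U ∈ 𝓝 (0 : K), ∀ W ∈ 𝓝 (0 : F), ∃ a ∈ W, ∃ b ∈ B n, f a * b ∉ U)) ∧
    ∃ _ : TopologicalSpace Hyperreal, OrderTopology Hyperreal ∧
      IsTopologicalDivisionRing Hyperreal ∧ T2Space Hyperreal ∧ IsPField Hyperreal := by
  refine ⟨?_, ?_⟩
  · intro F K _ _ _ _ _ _ f hF hf
    exact ⟨no_acc hF f hf, compact_finite hF f hf,
      fun X _ _ hX g hg => map_const hF f hf hX g hg, fun _ => not_bounded hF f⟩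
  · let _ : TopologicalSpace Hyperreal := Preorder.topology Hyperreal
    have _ : OrderTopology Hyperreal := ⟨rfl⟩
    refine ⟨inferInstance, inferInstance, inferInstance, inferInstance, ?_, ?_⟩
    · intro U hU
      obtain ⟨ε, hε, h⟩ := (nhds_basis_abs_sub_lt (0 : Hyperreal)).mem_iff.1 hU
      refine ⟨ε / 2, h ?_, (half_pos hε).ne'⟩
      show |ε / 2 - 0| < ε
      rw [sub_zero, abs_of_pos (half_pos hε)]
      exact half_lt_self hε
    · intro U hU
      choose ε hε h using fun n => (nhds_basis_abs_sub_lt (0 : Hyperreal)).mem_iff.1 (hU n)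
      obtain ⟨δ, hδ, hδε⟩ := exists_pos_lt ε hε
      refine (nhds_basis_abs_sub_lt (0 : Hyperreal)).mem_iff.2 ⟨δ, hδ, fun y hy => ?_⟩
      rw [mem_iInter]
      exact fun n => h n (lt_trans hy (hδε n))

end Pool.Agent.Results.MP_a60711_al.PFields
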